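import Pool.Agent.Helper95.AG.Defs
import Pool.Agent.Helper8.AF.Aff

/-! # Project AG (MP_9ee088_an): block LY0, the start of the base step -/

set_option autoImplicit false
open MeasureTheory Real Set Filter
open scoped ENNReal

namespace Pool.Agent.Helper99.AG

open Pool.Agent.Helper18.UC (sqo)
open Pool.Agent.Helper95.AF (mt po pM ip un)
open Pool.Agent.Helper95.AG (ly lyr)

theorem ip_le99 {p : ℝ} (hp : 0 < p) (hp1 : p ≤ 1 / 4) (x : ℝ) : ip p x ≤ 1 + ip (1 / 4) x := by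
  unfold ip
  rcases le_total 1 (ENNReal.ofReal x) with h | h
  · have h1 : ENNReal.ofReal x ^ (-p) ≤ 1 := by
      rw [ENNReal.rpow_neg]
      exact ENNReal.inv_le_one.2 (ENNReal.one_le_rpow h hp)
    exact h1.trans le_self_add
  · have h1 : ENNReal.ofReal x ^ (-p) ≤ ENNReal.ofReal x ^ (-(1 / 4) : ℝ) :=
      ENNReal.rpow_le_rpow_of_exponent_ge h (by linarith)
    exact h1.trans le_add_self

theorem ip_anti99 {p x y : ℝ} (hp : 0 < p) (h : x ≤ y) : ip p y ≤ ip p x := by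
  unfold ip
  rw [ENNReal.rpow_neg, ENNReal.rpow_neg]
  exact ENNReal.inv_le_inv.2 (ENNReal.rpow_le_rpow (ENNReal.ofReal_le_ofReal h) hp.le)

/-- one period -/
theorem per99 {K a x₀ : ℝ} (hK : ∀ a x₀ s α β : ℝ, 1 ≤ |a| → 0 < s → s ≤ 1 →
    ∫⁻ t, ip (1 / 4) |α + β * (2 + 2 * π * a * Real.cos (2 * π * (x₀ + s * t)))| ∂un ≤
      ENNReal.ofReal (K / (s * |a| ^ (1 / 4 : ℝ))) * ip (1 / 4) |β|) (hK1 : 1 ≤ K) (ha : 1 ≤ |a|) :
    ∫⁻ x in Icc x₀ (x₀ + 1), ip (1 / 4) |2 + 2 * π * a * Real.cos (2 * π * x)| ≤ ENNReal.ofReal K := by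
  have h1 := (measurePreserving_add_left (volume : Measure ℝ) x₀).setLIntegral_comp_preimage
    (s := Icc x₀ (x₀ + 1)) measurableSet_Icc (f := fun x => ip (1 / 4) |2 + 2 * π * a * Real.cos (2 * π * x)|) (by
      unfold ip
      fun_prop)
  have h2 : (fun x : ℝ => x₀ + x) ⁻¹' Icc x₀ (x₀ + 1) = Icc 0 1 := by
    ext x
    simp only [mem_preimage, mem_Icc]
    constructor <;> rintro ⟨h3, h4⟩ <;> constructor <;> linarith
  rw [h2] at h1
  rw [← h1]
  have h3 := hK a x₀ 1 0 1 ha one_pos le_rfl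
  have h4 : ip (1 / 4) |(1 : ℝ)| = 1 := by
    unfold ip
    rw [abs_one, ENNReal.ofReal_one, ENNReal.one_rpow]
  simp only [zero_add, one_mul] at h3
  rw [h4, mul_one] at h3
  refine h3.trans (ENNReal.ofReal_le_ofReal ?_)
  exact div_le_self (by linarith) (Real.one_le_rpow ha (by norm_num))

/-- **LY0**: the start -/
theorem start_ly : ∃ C : ℝ, 1 ≤ C ∧ ∀ (ε a s : ℝ) (b : ℕ → ℝ), 0 < ε → ε ≤ 1 / 2 → 100 ≤ |a| → s = |a| ^ (ε - 1) →
    ∫⁻ q in sqo (0, 0) 2, ly ε s a b 0 q ≤ ENNReal.ofReal (C * |a|) := by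
  obtain ⟨K, hK1, hK⟩ := Pool.Agent.Helper8.AF.aff_gain
  refine ⟨36 * (1 + K), by linarith, fun ε a s b hε hε1 ha hs => ?_⟩
  have ha1 : 1 ≤ |a| := by linarith
  have ha0 : 0 < |a| := by linarith
  have hpi := Real.pi_pos
  have hpi4 := Real.pi_lt_d2
  -- pointwise
  have hpt : ∀ q : ℝ × ℝ, ly ε s a b 0 q ≤
      (1 + ip (1 / 4) |2 + 2 * π * a * Real.cos (2 * π * q.1)|) * ENNReal.ofReal (9 * |a|) := by
    intro q
    have e1 : pM a b (0 + 1) q 0 0 = 2 + 2 * π * a * Real.cos (2 * π * q.1) := by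
      show (mt a (po a b 0 q).1 * pM a b 0 q) 0 0 = _
      have : pM a b 0 q = 1 := rfl
      rw [this, mul_one]
      rfl
    have e2 : pM a b 0 q 0 0 = 1 := rfl
    unfold ly lyr
    rw [e1, e2]
    obtain ⟨D, hD⟩ : ∃ D, D = 2 + 2 * π * a * Real.cos (2 * π * q.1) := ⟨_, rfl⟩
    rw [← hD]
    have hDa : |D| ≤ 9 * |a| := by
      rw [hD]
      refine (abs_add_le _ _).trans ?_
      rw [abs_mul, abs_mul, abs_mul, abs_of_pos (by norm_num : (0:ℝ) < 2), abs_of_pos hpi]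
      have h1 : |Real.cos (2 * π * q.1)| ≤ 1 := Real.abs_cos_le_one _
      have h2 : 2 * π * |a| * |Real.cos (2 * π * q.1)| ≤ 2 * π * |a| * 1 := mul_le_mul_of_nonneg_left h1 (by positivity)
      nlinarith
    have f1 : ip ((1 + ε) / 16) |D| ≤ 1 + ip (1 / 4) |D| := ip_le99 (by linarith) (by linarith) _
    have f2 : ENNReal.ofReal (max |D| |(1 : ℝ)|) ^ (1 / 16 : ℝ) ≤ ENNReal.ofReal (9 * |a|) ^ (1 / 2 : ℝ) := by
      refine (ENNReal.rpow_le_rpow (ENNReal.ofReal_le_ofReal (max_le hDa ?_)) (by norm_num)).trans ?_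
      · rw [abs_one]
        linarith
      · refine ENNReal.rpow_le_rpow_of_exponent_le ?_ (by norm_num)
        rw [← ENNReal.ofReal_one]
        exact ENNReal.ofReal_le_ofReal (by linarith)
    have f3 : ip (1 / 16) (|Real.cos (2 * π * (po a b (0 + 1) q).1)| + s) ≤ ENNReal.ofReal (9 * |a|) ^ (1 / 2 : ℝ) := by
      have h1 : |a|⁻¹ ≤ |Real.cos (2 * π * (po a b (0 + 1) q).1)| + s := by
        have h2 : |a|⁻¹ ≤ s := by
          rw [hs, ← Real.rpow_neg_one]
          exact Real.rpow_le_rpow_of_exponent_le ha1 (by linarith)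
        have := abs_nonneg (Real.cos (2 * π * (po a b (0 + 1) q).1))
        linarith
      refine (ip_anti99 (by norm_num) h1).trans ?_
      unfold ip
      rw [ENNReal.ofReal_inv_of_pos ha0, ENNReal.inv_rpow, ENNReal.rpow_neg, inv_inv]
      refine (ENNReal.rpow_le_rpow (ENNReal.ofReal_le_ofReal (show |a| ≤ 9 * |a| by linarith)) (by norm_num)).trans ?_
      refine ENNReal.rpow_le_rpow_of_exponent_le ?_ (by norm_num)
      rw [← ENNReal.ofReal_one]
      exact ENNReal.ofReal_le_ofReal (by linarith)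
    refine (mul_le_mul' (mul_le_mul' f1 f2) f3).trans (le_of_eq ?_)
    rw [mul_assoc]
    congr 1
    rw [← ENNReal.rpow_add_of_nonneg _ _ (by norm_num) (by norm_num)]
    norm_num
  -- integration
  have hint : ∫⁻ x in Ico (0 : ℝ) (0 + 2), (1 + ip (1 / 4) |2 + 2 * π * a * Real.cos (2 * π * x)|) ≤
      ENNReal.ofReal (2 + 2 * K) := by
    rw [lintegral_add_left measurable_const, lintegral_one, Measure.restrict_apply_univ, Real.volume_Ico]
    have h1 : ∫⁻ x in Ico (0 : ℝ) (0 + 2), ip (1 / 4) |2 + 2 * π * a * Real.cos (2 * π * x)| ≤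
        ENNReal.ofReal K + ENNReal.ofReal K := by
      have h2 : Ico (0 : ℝ) (0 + 2) ⊆ Icc 0 (0 + 1) ∪ Icc 1 (1 + 1) := by
        intro x hx
        rcases le_total x 1 with h | h
        · exact Or.inl ⟨hx.1, by linarith⟩
        · exact Or.inr ⟨h, by have := hx.2; linarith⟩
      refine (lintegral_mono_set h2).trans ((lintegral_union_le _ _ _).trans ?_)
      exact add_le_add (per99 hK hK1 ha1) (per99 hK hK1 ha1)
    refine (add_le_add_right h1 _).trans (le_of_eq ?_)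
    rw [← ENNReal.ofReal_add (by linarith) (by linarith), ← ENNReal.ofReal_add (by norm_num) (by linarith)]
    congr 1
    ring
  have hmeas : Measurable fun x : ℝ => 1 + ip (1 / 4) |2 + 2 * π * a * Real.cos (2 * π * x)| := by
    unfold ip
    fun_prop
  calc ∫⁻ q in sqo (0, 0) 2, ly ε s a b 0 q
      ≤ ∫⁻ q in sqo (0, 0) 2, (1 + ip (1 / 4) |2 + 2 * π * a * Real.cos (2 * π * q.1)|) * ENNReal.ofReal (9 * |a|) :=
        lintegral_mono fun q => hpt q
    _ = (∫⁻ x in Ico (0 : ℝ) (0 + 2), (1 + ip (1 / 4) |2 + 2 * π * a * Real.cos (2 * π * x)|)) *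
        ∫⁻ _y in Ico (0 : ℝ) (0 + 2), ENNReal.ofReal (9 * |a|) := by
        unfold sqo
        rw [Measure.volume_eq_prod, ← Measure.prod_restrict]
        exact lintegral_prod_mul (f := fun x => 1 + ip (1 / 4) |2 + 2 * π * a * Real.cos (2 * π * x)|)
          (g := fun _ => ENNReal.ofReal (9 * |a|)) hmeas.aemeasurable aemeasurable_const
    _ ≤ ENNReal.ofReal (2 + 2 * K) * (ENNReal.ofReal (9 * |a|) * ENNReal.ofReal 2) := by
        refine mul_le_mul' hint (le_of_eq ?_)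
        rw [lintegral_const, Measure.restrict_apply_univ, Real.volume_Ico]
        norm_num
    _ = ENNReal.ofReal (36 * (1 + K) * |a|) := by
        rw [← ENNReal.ofReal_mul (by positivity), ← ENNReal.ofReal_mul (by linarith)]
        congr 1
        ring

end Pool.Agent.Helper99.AG
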